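import Mathlib
import Pool.Agent.Helper13.P3.Psi

/-!
# P3-8: from the class to the count

For `n = t * c₁ ⋯ c_{i+r}` of index `k` the value `psiS N n` lies in one of at most `2 ^ (κ + 3)` places,
`psiS N t` is close to `a₀ = ⌊N log k⌋`, and `n ↦ (t, c)` is injective.
-/

namespace Pool.Agent.Helper19.P3

open Finset Pool.Agent.Helper6.Lehmer Pool.Agent.Helper6.LehmerCount Pool.Agent.Helper58.LT
open Pool.Agent.Helper58.PS Pool.Agent.Helper6.PW

private theorem cnt_lam_prime {p : ℕ} (hp : p.Prime) : lam p ≤ 2 / p := by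
  rw [lam_prime hp]
  have h2 : (2 : ℝ) ≤ p := by exact_mod_cast hp.two_le
  have h1 : (0 : ℝ) < (p : ℝ) - 1 := by linarith
  have h3 := Real.log_le_sub_one_of_pos (show (0 : ℝ) < (p : ℝ) / ((p : ℝ) - 1) by positivity)
  refine h3.trans ?_
  rw [div_sub_one h1.ne', div_le_div_iff₀ h1 (by linarith)]
  linarith

private theorem cnt_bounds {i r l κ β : ℕ} (C : ℕ) (hC : 2 * (i + r) + 20 ≤ C) (hri : r + 1 ≤ i)
    (hOk : Ok i β κ) (hCβ : C * κ ≤ β) (hl : |(l : ℝ) - (2 * i + 1) * β| ≤ κ) :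
    l ≤ (2 * i + 1) * β + κ ∧ (2 * i + 1) * β ≤ l + κ ∧ l + 2 ≤ 2 ^ κ ∧ κ ≤ β ∧
      (2 * (i + r) + 20) * κ ≤ β := by
  have h1 := hOk.one
  have h2 := hOk.po
  have h3 : (2 * (i + r) + 20) * κ ≤ β := (Nat.mul_le_mul_right κ hC).trans hCβ
  have h4 : κ ≤ β := by nlinarith
  rw [abs_le] at hl
  have h5 : l ≤ (2 * i + 1) * β + κ := by
    have : (l : ℝ) ≤ (2 * i + 1) * β + κ := by linarith [hl.2]
    exact_mod_cast this
  have h6 : (2 * i + 1) * β ≤ l + κ := by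
    have : ((2 * i + 1) * β : ℝ) ≤ l + κ := by linarith [hl.1]
    exact_mod_cast this
  refine ⟨h5, h6, ?_, h4, h3⟩
  have h7 : (2 * i + 1) * β + κ + 2 ≤ (8 * i + 16) * β + 1 := by nlinarith
  omega

private theorem cnt_prod_ge {β κ m : ℕ} {c : Fin m → ℕ} (hc : ∀ j, c j ∈ PP β κ) :
    2 ^ ((β - κ) * m) ≤ ∏ j, c j := by
  calc 2 ^ ((β - κ) * m) = ∏ _j : Fin m, 2 ^ (β - κ) := by
        rw [prod_const, card_univ, Fintype.card_fin, pow_mul]
    _ ≤ ∏ j, c j := by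
        refine prod_le_prod (fun _ _ => Nat.zero_le _) fun j _ => ?_
        have := hc j
        unfold PP at this
        exact (mem_Icc.1 (mem_filter.1 this).1).1

private theorem cnt_prod_le {β κ m : ℕ} {c : Fin m → ℕ} (hc : ∀ j, c j ∈ PP β κ) :
    ∏ j, c j ≤ 2 ^ ((β + κ) * m) := by
  calc ∏ j, c j ≤ ∏ _j : Fin m, 2 ^ (β + κ) := by
        refine prod_le_prod (fun _ _ => Nat.zero_le _) fun j _ => ?_
        have := hc j
        unfold PP at this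
        exact (mem_Icc.1 (mem_filter.1 this).1).2
    _ = 2 ^ ((β + κ) * m) := by
        rw [prod_const, card_univ, Fintype.card_fin, pow_mul]

private theorem cnt_PP_prime {β κ p : ℕ} (h : p ∈ PP β κ) : p.Prime := by
  unfold PP at h
  exact (mem_filter.1 h).2

/-- everything about one number -/
private theorem cnt_one {i r l κ k β n t : ℕ} (C : ℕ) (hC : 2 * (i + r) + 20 ≤ C) (hri : r + 1 ≤ i)
    (hOk : Ok i β κ) (hCβ : C * κ ≤ β) (hl : |(l : ℝ) - (2 * i + 1) * β| ≤ κ)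
    (hI : Idx n k) (hn1 : n ≤ 2 ^ l) (hn2 : 2 ^ (l - 1) < n) (c : Fin (i + r) → ℕ)
    (hn : n = t * ∏ j, c j) (hs : ∀ p ∈ t.primeFactors, p ≤ 2 ^ κ) (hc : ∀ j, c j ∈ PP β κ)
    (hinj : Function.Injective c) :
    t ∈ Sm κ ((i + 1 - r) * β + C * κ) ∧ 2 ^ (3 * (β / 2) + 2 * κ) ≤ t ∧
      |psiS (2 ^ ((2 * i + 1) * β)) t - ⌊((2 ^ ((2 * i + 1) * β) : ℕ) : ℝ) * Real.log k⌋| ≤
        ((2 ^ (2 * i * β + C * κ) : ℕ) : ℤ) ∧
      psiS (2 ^ ((2 * i + 1) * β)) t + sm' (psiS (2 ^ ((2 * i + 1) * β))) c =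
        psiS (2 ^ ((2 * i + 1) * β)) n ∧
      |psiS (2 ^ ((2 * i + 1) * β)) n - ⌊((2 ^ ((2 * i + 1) * β) : ℕ) : ℝ) * Real.log k⌋| ≤
        2 ^ (κ + 2) + 1 := by
  obtain ⟨hl1, hl2, hl3, hκβ, hb⟩ := cnt_bounds C hC hri hOk hCβ hl
  have hκ1 := hOk.one
  have hsq : Squarefree n := hI.lehmer.squarefree
  have hn0 : n ≠ 0 := hsq.ne_zero
  have ht0 : t ≠ 0 := by
    rintro rfl
    rw [zero_mul] at hn
    exact hn0 hn
  have hP0 : (∏ j, c j) ≠ 0 := by
    intro h0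
    rw [h0, mul_zero] at hn
    exact hn0 hn
  have hpr : ∀ j, (c j).Prime := fun j => cnt_PP_prime (hc j)
  have hsqt : Squarefree t := by
    rw [hn] at hsq
    exact hsq.squarefree_of_dvd (Dvd.intro _ rfl)
  have hge := cnt_prod_ge hc
  have hle := cnt_prod_le hc
  obtain ⟨d, rfl⟩ : ∃ d, i = r + d := ⟨i - r, by omega⟩
  obtain ⟨β', rfl⟩ : ∃ β', β = κ + β' := ⟨β - κ, by omega⟩
  have hd : 1 ≤ d := by omega
  have hcast : r + d + 1 - r = d + 1 := by omega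
  rw [hcast]
  rw [Nat.add_sub_cancel_left] at hge
  -- size of t
  have ht1 : t ≤ 2 ^ ((d + 1) * (κ + β') + C * κ) := by
    have h1 : t * 2 ^ (β' * (r + d + r)) ≤ 2 ^ l :=
      (Nat.mul_le_mul_left t hge).trans (hn ▸ hn1)
    have h2 : l ≤ ((d + 1) * (κ + β') + C * κ) + β' * (r + d + r) := by
      have : (2 * (r + d + r) + 20) * κ ≤ C * κ := Nat.mul_le_mul_right κ hC
      nlinarith
    have h3 : t * 2 ^ (β' * (r + d + r)) ≤
        2 ^ ((d + 1) * (κ + β') + C * κ) * 2 ^ (β' * (r + d + r)) := by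
      rw [← pow_add]
      exact h1.trans (Nat.pow_le_pow_right (by norm_num) h2)
    exact Nat.le_of_mul_le_mul_right h3 (by positivity)
  have ht2 : 2 ^ (3 * ((κ + β') / 2) + 2 * κ) ≤ t := by
    have h1 : 2 ^ (l - 1) < t * 2 ^ ((κ + β' + κ) * (r + d + r)) :=
      (hn ▸ hn2 : 2 ^ (l - 1) < t * ∏ j, c j).trans_le (Nat.mul_le_mul_left t hle)
    have h2 : (3 * ((κ + β') / 2) + 2 * κ) + (κ + β' + κ) * (r + d + r) ≤ l - 1 := by
      obtain ⟨e, he⟩ : ∃ e, e = (κ + β') / 2 := ⟨_, rfl⟩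
      have he2 : 2 * e ≤ κ + β' := by omega
      rw [← he]
      have h5 : (2 * (r + d) + 1) * (κ + β') = (r + d + r) * (κ + β') + (d + 1) * (κ + β') := by ring
      have h6 : 2 * (κ + β') ≤ (d + 1) * (κ + β') := Nat.mul_le_mul_right _ (by omega)
      have h7 : (κ + β' + κ) * (r + d + r) = (r + d + r) * (κ + β') + (r + d + r) * κ := by ring
      have h8 : (2 * (r + d + r) + 20) * κ = 2 * ((r + d + r) * κ) + 20 * κ := by ring
      rw [h7]
      omega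
    have h4 : 2 ^ (3 * ((κ + β') / 2) + 2 * κ) * 2 ^ ((κ + β' + κ) * (r + d + r)) <
        t * 2 ^ ((κ + β' + κ) * (r + d + r)) := by
      rw [← pow_add]
      exact (Nat.pow_le_pow_right (by norm_num) h2).trans_lt h1
    exact (Nat.lt_of_mul_lt_mul_right h4).le
  have hmem : t ∈ Sm κ ((d + 1) * (κ + β') + C * κ) := by
    unfold Sm
    rw [mem_filter, mem_Icc]
    exact ⟨⟨Nat.one_le_iff_ne_zero.2 ht0, ht1⟩, hsqt, hs⟩
  -- the sum
  have hadd : psiS (2 ^ ((2 * (r + d) + 1) * (κ + β'))) t +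
      sm' (psiS (2 ^ ((2 * (r + d) + 1) * (κ + β')))) c =
        psiS (2 ^ ((2 * (r + d) + 1) * (κ + β'))) n := by
    rw [hn, psiS_mul ht0 hP0, psiS_prod c fun j => (hpr j).ne_zero]
    rfl
  -- logarithms
  have hlam : lam n = lam t + ∑ j, lam (c j) := by
    rw [← lam_prod c hpr hinj, hn]
    exact lam_mul_of_squarefree (hn ▸ hsq)
  have hn2' : 2 ≤ n := hI.lehmer.one_lt
  have hidx := lam_idx hI.eq hn2'
  have hlam0 : ∀ j, 0 ≤ lam (c j) := fun j => lam_nonneg _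
  have hsum0 : 0 ≤ ∑ j, lam (c j) := sum_nonneg fun j _ => hlam0 j
  have hsum1 : ∑ j, lam (c j) ≤ (r + d + r : ℝ) * (2 / 2 ^ β') := by
    calc ∑ j, lam (c j) ≤ ∑ _j : Fin (r + d + r), (2 / 2 ^ β' : ℝ) := by
          refine sum_le_sum fun j _ => (cnt_lam_prime (hpr j)).trans ?_
          have h1 := hc j
          unfold PP at h1
          have h2 := (mem_Icc.1 (mem_filter.1 h1).1).1
          rw [Nat.add_sub_cancel_left] at h2
          have h3 : (2 : ℝ) ^ β' ≤ (c j : ℝ) := by exact_mod_cast h2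
          exact div_le_div_of_nonneg_left (by norm_num) (by positivity) h3
      _ = _ := by
          rw [sum_const, card_univ, Fintype.card_fin, nsmul_eq_mul]
          push_cast
          ring
  set N : ℕ := 2 ^ ((2 * (r + d) + 1) * (κ + β')) with hN
  have hNR : (N : ℝ) = 2 ^ ((2 * (r + d) + 1) * (κ + β')) := by rw [hN]; push_cast; ring
  have hN0 : (0 : ℝ) < N := by rw [hNR]; positivity
  set a₀ : ℤ := ⌊(N : ℝ) * Real.log k⌋ with ha₀
  have ha1 : (a₀ : ℝ) ≤ N * Real.log k := Int.floor_le _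
  have ha2 : (N : ℝ) * Real.log k < a₀ + 1 := Int.lt_floor_add_one _
  have hNn : (N : ℝ) * (2 / n) ≤ 2 ^ (κ + 2) := by
    have h1 : (2 : ℝ) ^ (l - 1) < n := by exact_mod_cast hn2
    have hnR : (0 : ℝ) < n := by positivity
    have h2 : (N : ℝ) ≤ 2 ^ (l + κ) := by
      rw [hNR]
      exact pow_le_pow_right₀ (by norm_num) hl2
    have hl0 : 1 ≤ l := by nlinarith
    have h3 : (2 : ℝ) ^ (l + κ) * 2 = 2 ^ (κ + 2) * 2 ^ (l - 1) := by
      rw [← pow_succ, ← pow_add]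
      congr 1
      omega
    rw [mul_div_assoc', div_le_iff₀ hnR]
    calc (N : ℝ) * 2 ≤ 2 ^ (l + κ) * 2 := by linarith
      _ = 2 ^ (κ + 2) * 2 ^ (l - 1) := h3
      _ ≤ 2 ^ (κ + 2) * n := mul_le_mul_of_nonneg_left h1.le (by positivity)
  have hlR : (l : ℝ) + 2 ≤ 2 ^ κ := by exact_mod_cast hl3
  -- n
  have hΩn : ((n.primeFactorsList.length : ℕ) : ℝ) ≤ l := by
    exact_mod_cast length_le hn0 hn1
  have hup : (psiS N n : ℝ) ≤ a₀ + 1 + 2 ^ (κ + 2) := by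
    have h1 := psiS_le N n
    rw [lamS_sqfree hsq] at h1
    have h2 : (N : ℝ) * lam n ≤ N * (Real.log k + 2 / n) := mul_le_mul_of_nonneg_left hidx.2 hN0.le
    rw [mul_add] at h2
    linarith
  have hlow : (a₀ : ℝ) - l ≤ psiS N n := by
    have h1 := psiS_ge N n
    rw [lamS_sqfree hsq] at h1
    have h2 : (N : ℝ) * Real.log k ≤ N * lam n := mul_le_mul_of_nonneg_left hidx.1.le hN0.le
    linarith
  have hκ2 : (2 : ℝ) ^ κ ≤ 2 ^ (κ + 2) := pow_le_pow_right₀ (by norm_num) (by omega)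
  have hfin : |psiS N n - a₀| ≤ 2 ^ (κ + 2) + 1 := by
    have : |(psiS N n : ℝ) - a₀| ≤ 2 ^ (κ + 2) + 1 := by
      rw [abs_le]
      constructor <;> linarith
    exact_mod_cast this
  -- t
  have htn : t ≤ n := by
    rw [hn]
    exact Nat.le_mul_of_pos_right t (Nat.pos_of_ne_zero hP0)
  have hΩt : ((t.primeFactorsList.length : ℕ) : ℝ) ≤ l := by
    exact_mod_cast length_le ht0 (htn.trans hn1)
  have hbig : (N : ℝ) * ((r + d + r : ℝ) * (2 / 2 ^ β')) + l + 2 ≤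
      2 ^ (2 * (r + d) * (κ + β') + C * κ) := by
    have h1 : (N : ℝ) * ((r + d + r : ℝ) * (2 / 2 ^ β')) =
        (r + d + r : ℝ) * 2 ^ (2 * (r + d) * (κ + β') + κ + 1) := by
      rw [hNR]
      have : (2 : ℝ) ^ ((2 * (r + d) + 1) * (κ + β')) = 2 ^ (2 * (r + d) * (κ + β') + κ) * 2 ^ β' := by
        rw [← pow_add]
        congr 1
        ring
      rw [this, pow_succ]
      field_simp
    have h2 : ((r + d + r : ℕ) : ℝ) ≤ 2 ^ ((r + d + r) * κ) := by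
      have h3 : r + d + r < 2 ^ (r + d + r) := Nat.lt_two_pow_self
      have h4 : 2 ^ (r + d + r) ≤ 2 ^ ((r + d + r) * κ) :=
        Nat.pow_le_pow_right (by norm_num) (Nat.le_mul_of_pos_right _ hκ1)
      exact_mod_cast h3.le.trans h4
    push_cast at h2
    have h5 : (r + d + r : ℝ) * 2 ^ (2 * (r + d) * (κ + β') + κ + 1) ≤
        2 ^ (2 * (r + d) * (κ + β') + (C * κ - 1)) := by
      calc (r + d + r : ℝ) * 2 ^ (2 * (r + d) * (κ + β') + κ + 1)
          ≤ 2 ^ ((r + d + r) * κ) * 2 ^ (2 * (r + d) * (κ + β') + κ + 1) :=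
            mul_le_mul_of_nonneg_right h2 (by positivity)
        _ = 2 ^ ((r + d + r) * κ + (2 * (r + d) * (κ + β') + κ + 1)) := by rw [← pow_add]
        _ ≤ _ := by
            refine pow_le_pow_right₀ (by norm_num) ?_
            have h6 : (2 * (r + d + r) + 20) * κ ≤ C * κ := Nat.mul_le_mul_right κ hC
            have h7 : (r + d + r) * κ + κ + 2 ≤ C * κ := by nlinarith
            omega
    have h8 : (l : ℝ) + 2 ≤ 2 ^ (2 * (r + d) * (κ + β') + (C * κ - 1)) := by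
      refine hlR.trans (pow_le_pow_right₀ (by norm_num) ?_)
      have h6 : (2 * (r + d + r) + 20) * κ ≤ C * κ := Nat.mul_le_mul_right κ hC
      have h7 : κ + 1 ≤ C * κ := by nlinarith
      omega
    have h9 : (2 : ℝ) ^ (2 * (r + d) * (κ + β') + C * κ) =
        2 ^ (2 * (r + d) * (κ + β') + (C * κ - 1)) + 2 ^ (2 * (r + d) * (κ + β') + (C * κ - 1)) := by
      rw [← two_mul, ← pow_succ']
      congr 1
      have h6 : (2 * (r + d + r) + 20) * κ ≤ C * κ := Nat.mul_le_mul_right κ hC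
      have h7 : 1 ≤ C * κ := by nlinarith
      omega
    rw [h9, h1]
    linarith
  have hbig2 : (1 : ℝ) + 2 ^ (κ + 2) ≤ 2 ^ (2 * (r + d) * (κ + β') + C * κ) := by
    have h1 : (1 : ℝ) + 2 ^ (κ + 2) ≤ 2 ^ (κ + 3) := by
      have : (1 : ℝ) ≤ 2 ^ (κ + 2) := one_le_pow₀ (by norm_num)
      rw [pow_succ (2 : ℝ) (κ + 2)]
      linarith
    refine h1.trans (pow_le_pow_right₀ (by norm_num) ?_)
    have h6 : (2 * (r + d + r) + 20) * κ ≤ C * κ := Nat.mul_le_mul_right κ hC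
    have h7 : κ + 3 ≤ C * κ := by nlinarith
    omega
  have htup : (psiS N t : ℝ) ≤ a₀ + 1 + 2 ^ (κ + 2) := by
    have h1 := psiS_le N t
    rw [lamS_sqfree hsqt] at h1
    have h3 : lam t ≤ Real.log k + 2 / n := by linarith [hidx.2]
    have h2 : (N : ℝ) * lam t ≤ N * (Real.log k + 2 / n) := mul_le_mul_of_nonneg_left h3 hN0.le
    rw [mul_add] at h2
    linarith
  have htlow : (a₀ : ℝ) - N * ((r + d + r : ℝ) * (2 / 2 ^ β')) - l ≤ psiS N t := by
    have h1 := psiS_ge N t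
    rw [lamS_sqfree hsqt] at h1
    have h3 : Real.log k - (r + d + r : ℝ) * (2 / 2 ^ β') ≤ lam t := by linarith [hidx.1]
    have h2 : (N : ℝ) * (Real.log k - (r + d + r : ℝ) * (2 / 2 ^ β')) ≤ N * lam t :=
      mul_le_mul_of_nonneg_left h3 hN0.le
    rw [mul_sub] at h2
    linarith
  have hfint : |psiS N t - a₀| ≤ ((2 ^ (2 * (r + d) * (κ + β') + C * κ) : ℕ) : ℤ) := by
    have : |(psiS N t : ℝ) - a₀| ≤ 2 ^ (2 * (r + d) * (κ + β') + C * κ) := by
      rw [abs_le]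
      constructor <;> linarith
    have h2 : ((|psiS N t - a₀| : ℤ) : ℝ) ≤ ((2 ^ (2 * (r + d) * (κ + β') + C * κ) : ℤ) : ℝ) := by
      push_cast
      exact this
    have h3 : |psiS N t - a₀| ≤ (2 ^ (2 * (r + d) * (κ + β') + C * κ) : ℤ) := by exact_mod_cast h2
    push_cast
    exact h3
  exact ⟨hmem, ht2, hfint, hadd, hfin⟩

theorem count_E (i r : ℕ) (hr : 2 ≤ r) (hri : r + 1 ≤ i) : ∃ C : ℕ,
    ∀ (l κ k β : ℕ) (S : Finset ℕ), Ok i β κ → C * κ ≤ β →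
    |(l : ℝ) - (2 * i + 1) * β| ≤ κ →
    (∀ n ∈ S, Idx n k ∧ n ≤ 2 ^ l ∧ 2 ^ (l - 1) < n ∧ DataE n κ i r β) →
    ∃ (a₀ : ℤ) (h : ℕ), 1 ≤ h ∧ h ≤ 2 ^ (2 * i * β + C * κ) ∧ |a₀| ≤ 2 ^ ((2 * i + 3) * β) ∧
      ∀ B : ℝ, (∀ u : ℤ, (#{z ∈ ((Sm κ ((i + 1 - r) * β + C * κ)).filter fun t =>
        2 ^ (3 * (β / 2) + 2 * κ) ≤ t ∧
        |psiS (2 ^ ((2 * i + 1) * β)) t - a₀| ≤ h) ×ˢ tup (PP β κ) (i + r) |
        psiS (2 ^ ((2 * i + 1) * β)) z.1 + sm' (psiS (2 ^ ((2 * i + 1) * β))) z.2 = u} : ℝ) ≤ B) →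
      (#S : ℝ) ≤ 2 ^ (C * κ) * B := by
  classical
  refine ⟨2 * (i + r) + 20, ?_⟩
  intro l κ k β S hOk hCβ hl hS
  have hκ1 := hOk.one
  rcases S.eq_empty_or_nonempty with he | ⟨n₀, hn₀⟩
  · refine ⟨0, 1, le_rfl, Nat.one_le_two_pow, by simp, ?_⟩
    intro B hB
    have h0 : (0 : ℝ) ≤ B := (Nat.cast_nonneg _).trans (hB 0)
    rw [he]
    simp only [card_empty, Nat.cast_zero]
    positivity
  obtain ⟨hl1, hl2, hl3, hκβ, hb⟩ := cnt_bounds (2 * (i + r) + 20) le_rfl hri hOk hCβ hl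
  set N : ℕ := 2 ^ ((2 * i + 1) * β) with hN
  refine ⟨⌊(N : ℝ) * Real.log k⌋, 2 ^ (2 * i * β + (2 * (i + r) + 20) * κ), Nat.one_le_two_pow, le_rfl,
    ?_, ?_⟩
  · -- size of a₀
    obtain ⟨hI, hn1, hn2, -⟩ := hS n₀ hn₀
    have hk1 : 1 ≤ k := by have := hI.two_le; omega
    have hkn : k ≤ 2 ^ l := by
      have h1 := hI.eq
      have h2 : 0 < n₀.totient := Nat.totient_pos.2 (by omega)
      have h3 : k ≤ k * n₀.totient := Nat.le_mul_of_pos_right k h2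
      omega
    have hlog0 : 0 ≤ Real.log k := Real.log_nonneg (by exact_mod_cast hk1)
    have hlog : Real.log k ≤ l := by
      have h1 : Real.log k ≤ Real.log ((2 : ℝ) ^ l) :=
        Real.log_le_log (by exact_mod_cast hk1) (by exact_mod_cast hkn)
      rw [Real.log_pow] at h1
      have h2 : Real.log 2 ≤ 1 := by
        have := Real.log_two_lt_d9
        linarith
      have h3 : (l : ℝ) * Real.log 2 ≤ l * 1 := mul_le_mul_of_nonneg_left h2 (Nat.cast_nonneg _)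
      linarith
    have hN0 : (0 : ℝ) ≤ N := Nat.cast_nonneg _
    have hf0 : 0 ≤ ⌊(N : ℝ) * Real.log k⌋ := Int.floor_nonneg.2 (mul_nonneg hN0 hlog0)
    rw [abs_of_nonneg hf0]
    have h1 : ((⌊(N : ℝ) * Real.log k⌋ : ℤ) : ℝ) ≤ (2 : ℝ) ^ ((2 * i + 3) * β) := by
      refine (Int.floor_le _).trans ?_
      have h2 : (l : ℝ) ≤ 2 ^ (2 * β) := by
        have h3 : l ≤ 2 ^ (2 * β) :=
          (by omega : l ≤ 2 ^ κ).trans (Nat.pow_le_pow_right (by norm_num) (by omega))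
        exact_mod_cast h3
      calc (N : ℝ) * Real.log k ≤ N * 2 ^ (2 * β) :=
            mul_le_mul_of_nonneg_left (hlog.trans h2) hN0
        _ = 2 ^ ((2 * i + 3) * β) := by
            rw [hN]
            push_cast
            rw [← pow_add]
            congr 1
            ring
    exact_mod_cast h1
  · intro B hB
    have hB0 : (0 : ℝ) ≤ B := (Nat.cast_nonneg _).trans (hB 0)
    have hex : ∀ n ∈ S, ∃ z : ℕ × (Fin (i + r) → ℕ), n = z.1 * ∏ j, z.2 j ∧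
        (∀ p ∈ z.1.primeFactors, p ≤ 2 ^ κ) ∧ (∀ j, z.2 j ∈ PP β κ) ∧ Function.Injective z.2 := by
      intro n hn
      obtain ⟨t, c, h1, h2, h3, h4⟩ := (hS n hn).2.2.2
      exact ⟨(t, c), h1, h2, h3, h4⟩
    choose! Z hZ using hex
    have hmain : ∀ n ∈ S, _ := fun n hn =>
      cnt_one (t := (Z n).1) (2 * (i + r) + 20) le_rfl hri hOk hCβ hl (hS n hn).1 (hS n hn).2.1
        (hS n hn).2.2.1 (Z n).2 (hZ n hn).1 (hZ n hn).2.1 (hZ n hn).2.2.1 (hZ n hn).2.2.2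
    rw [← hN] at hmain
    set a₀ : ℤ := ⌊(N : ℝ) * Real.log k⌋ with ha₀
    set I : Finset ℤ := Icc (a₀ - (2 ^ (κ + 2) + 1)) (a₀ + (2 ^ (κ + 2) + 1)) with hI
    have hcardI : (#I : ℝ) ≤ 2 ^ ((2 * (i + r) + 20) * κ) := by
      have h1 : #I = 2 * (2 ^ (κ + 2) + 1) + 1 := by
        rw [hI, Int.card_Icc]
        have : a₀ + (2 ^ (κ + 2) + 1) + 1 - (a₀ - (2 ^ (κ + 2) + 1)) =
            ((2 * (2 ^ (κ + 2) + 1) + 1 : ℕ) : ℤ) := by
          push_cast
          ring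
        rw [this, Int.toNat_natCast]
      have h2 : 2 * (2 ^ (κ + 2) + 1) + 1 ≤ 2 ^ (κ + 4) := by
        have h3 : 2 ^ (κ + 4) = 4 * 2 ^ (κ + 2) := by ring
        have h4 : 2 ^ 2 ≤ 2 ^ (κ + 2) := Nat.pow_le_pow_right (by norm_num) (by omega)
        omega
      have h5 : #I ≤ 2 ^ ((2 * (i + r) + 20) * κ) := by
        rw [h1]
        refine h2.trans (Nat.pow_le_pow_right (by norm_num) ?_)
        nlinarith
      exact_mod_cast h5
    have hfib : #S = ∑ u ∈ I, #{n ∈ S | psiS N n = u} := by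
      apply card_eq_sum_card_fiberwise
      intro n hn
      have h1 := (hmain n hn).2.2.2.2
      rw [abs_le] at h1
      rw [mem_coe, hI, mem_Icc]
      constructor <;> linarith [h1.1, h1.2]
    have hone : ∀ u ∈ I, (#{n ∈ S | psiS N n = u} : ℝ) ≤ B := by
      intro u _
      refine le_trans ?_ (hB u)
      norm_cast
      refine card_le_card_of_injOn Z ?_ ?_
      · intro n hn
        rw [mem_coe, mem_filter] at hn
        obtain ⟨h1, h2, h3, h4, h5⟩ := hmain n hn.1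
        rw [mem_coe, mem_filter, mem_product, mem_filter]
        refine ⟨⟨⟨h1, h2, h3⟩, mem_tup.2 (hZ n hn.1).2.2.1⟩, ?_⟩
        rw [h4, hn.2]
      · intro n hn n' hn' hZZ
        rw [mem_coe, mem_filter] at hn hn'
        rw [(hZ n hn.1).1, (hZ n' hn'.1).1, hZZ]
    calc (#S : ℝ) = ∑ u ∈ I, (#{n ∈ S | psiS N n = u} : ℝ) := by rw [hfib]; push_cast; rfl
      _ ≤ ∑ _u ∈ I, B := sum_le_sum hone
      _ = #I * B := by rw [sum_const, nsmul_eq_mul]
      _ ≤ 2 ^ ((2 * (i + r) + 20) * κ) * B := mul_le_mul_of_nonneg_right hcardI hB0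

end Pool.Agent.Helper19.P3
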