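import Mathlib
import Pool.Agent.Helper13.P3.Psi
import Pool.Agent.Helper58.LT.Pos

/-!
# P4-6: the diagonal counts T0

For `z = (a, x₁, x₂, c)` and `z' = (a', x₁', x₂', c')` with the same value of `psiS`: a divisor `δ` of
`a' x₁' x₂'` of size about `2 ^ (C' κ)` and `z` determine `D' = a' x₁' x₂' ∏ c'` (spacing), and `D'` has at
most `2 ^ ((m + 2) κ)` factorisations of this kind.
-/

namespace Pool.Agent.Helper19.P3

open Finset Pool.Agent.Helper6.Lehmer Pool.Agent.Helper6.LehmerCount Pool.Agent.Helper58.LT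
open Pool.Agent.Helper58.PS Pool.Agent.Helper6.PW

private theorem tz_div {κ u D : ℕ} (hu : u ≠ 0) (hs : ∀ p ∈ u.primeFactors, p ≤ 2 ^ κ)
    (hD : 1 ≤ D) : ∃ d, d ∣ u ∧ d ≤ D ∧ (d = u ∨ D < d * 2 ^ κ) := by
  obtain ⟨d, hd, hmax⟩ := exists_max_image (u.divisors.filter (fun d => d ≤ D)) (fun d => d)
    ⟨1, by simp [hu, hD]⟩
  rw [mem_filter, Nat.mem_divisors] at hd
  refine ⟨d, hd.1.1, hd.2, ?_⟩
  by_cases h : d = u
  · exact Or.inl h
  right
  obtain ⟨e, he⟩ := hd.1.1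
  have he1 : e ≠ 1 := by
    rintro rfl
    exact h (by rw [he, mul_one])
  have he0 : e ≠ 0 := by
    rintro rfl
    exact hu (by rw [he, mul_zero])
  have hd0 : 0 < d := by
    rcases Nat.eq_zero_or_pos d with h0 | h0
    · subst h0
      exact absurd (by rw [he, zero_mul]) hu
    · exact h0
  obtain ⟨p, hp, hpe⟩ := Nat.exists_prime_and_dvd he1
  have hpu : p ∈ u.primeFactors :=
    Nat.mem_primeFactors.2 ⟨hp, hpe.trans (Dvd.intro_left d he.symm), hu⟩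
  have hdp : d * p ∣ u := by
    rw [he]
    exact Nat.mul_dvd_mul_left d hpe
  by_contra hcon
  push Not at hcon
  have h1 : d * p ≤ D := (Nat.mul_le_mul_left d (hs p hpu)).trans hcon
  have h2 := hmax (d * p) (mem_filter.2 ⟨Nat.mem_divisors.2 ⟨hdp, hu⟩, h1⟩)
  have h3 : d * 2 ≤ d * p := Nat.mul_le_mul_left d hp.two_le
  omega

/-- the product of all entries -/
private def tz_val {m : ℕ} (z : ℕ × ℕ × ℕ × (Fin m → ℕ)) : ℕ :=
  (z.1 * (z.2.1 * z.2.2.1)) * ∏ j, z.2.2.2 j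

private theorem tz_psi {N m : ℕ} (z : ℕ × ℕ × ℕ × (Fin m → ℕ)) (h1 : z.1 ≠ 0) (h2 : z.2.1 ≠ 0)
    (h3 : z.2.2.1 ≠ 0) (h4 : ∀ j, z.2.2.2 j ≠ 0) :
    psiS N z.1 + psiS N z.2.1 + psiS N z.2.2.1 + sm' (psiS N) z.2.2.2 = psiS N (tz_val z) := by
  unfold tz_val sm'
  rw [psiS_mul (mul_ne_zero h1 (mul_ne_zero h2 h3)) (prod_ne_zero_iff.2 fun j _ => h4 j),
    psiS_mul h1 (mul_ne_zero h2 h3), psiS_mul h2 h3, psiS_prod _ h4]
  ring

private theorem tz_Sm {κ M a : ℕ} (h : a ∈ Sm κ M) : a ≠ 0 ∧ a ≤ 2 ^ M ∧ Squarefree a ∧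
    ∀ p ∈ a.primeFactors, p ≤ 2 ^ κ := by
  unfold Sm at h
  rw [mem_filter, mem_Icc] at h
  exact ⟨by omega, h.1.2, h.2.1, h.2.2⟩

private theorem tz_PP {β κ p : ℕ} (h : p ∈ PP β κ) : p.Prime ∧ p ≤ 2 ^ (β + κ) := by
  unfold PP at h
  rw [mem_filter, mem_Icc] at h
  exact ⟨h.2, h.1.2⟩

/-- factorisations of one number -/
private theorem tz_fib {κ β m M₁ M₂ : ℕ} (A X : Finset ℕ) (hA : A ⊆ Sm κ M₁) (hX : X ⊆ Sm κ M₂)
    (D : ℕ) (hD : D.primeFactors.card ≤ κ) :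
    #{z ∈ A ×ˢ X ×ˢ X ×ˢ tup (PP β κ) m | tz_val z = D} ≤ 2 ^ ((m + 2) * κ) := by
  classical
  rcases Nat.eq_zero_or_pos D with h0 | h0
  · subst h0
    rw [filter_eq_empty_iff.2]
    · simp
    · rintro ⟨a, x, y, c⟩ hz
      simp only [mem_product] at hz
      obtain ⟨h1, h2, h3, h4⟩ := hz
      unfold tz_val
      refine mul_ne_zero (mul_ne_zero (tz_Sm (hA h1)).1 (mul_ne_zero (tz_Sm (hX h2)).1
        (tz_Sm (hX h3)).1)) (prod_ne_zero_iff.2 fun j _ => ?_)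
      exact (tz_PP (mem_tup.1 h4 j)).1.ne_zero
  have hcard : #(D.primeFactors.powerset ×ˢ D.primeFactors.powerset ×ˢ tup D.primeFactors m) ≤
      2 ^ ((m + 2) * κ) := by
    rw [card_product, card_product, card_powerset, card_tup]
    have h1 : 2 ^ #D.primeFactors ≤ 2 ^ κ := Nat.pow_le_pow_right (by norm_num) hD
    have h2 : #D.primeFactors ^ m ≤ (2 ^ κ) ^ m := by
      refine Nat.pow_le_pow_left ?_ m
      exact hD.trans (Nat.lt_two_pow_self).le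
    calc 2 ^ #D.primeFactors * (2 ^ #D.primeFactors * #D.primeFactors ^ m)
        ≤ 2 ^ κ * (2 ^ κ * (2 ^ κ) ^ m) := Nat.mul_le_mul h1 (Nat.mul_le_mul h1 h2)
      _ = 2 ^ ((m + 2) * κ) := by
          rw [← pow_mul, ← pow_add, ← pow_add]
          congr 1
          ring
  refine le_trans ?_ hcard
  refine card_le_card_of_injOn (fun z : ℕ × ℕ × ℕ × (Fin m → ℕ) =>
    (z.1.primeFactors, z.2.1.primeFactors, z.2.2.2)) ?_ ?_
  · rintro ⟨a, x, y, c⟩ hz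
    simp only [coe_filter, mem_product, Set.mem_ofPred_eq] at hz
    obtain ⟨⟨h1, h2, h3, h4⟩, h5⟩ := hz
    unfold tz_val at h5
    simp only at h5
    simp only [mem_coe, mem_product, mem_powerset]
    refine ⟨?_, ?_, ?_⟩
    · exact Nat.primeFactors_mono (Dvd.intro _ (by rw [← h5, mul_assoc])) (by omega)
    · refine Nat.primeFactors_mono ?_ (by omega)
      rw [← h5]
      exact (Dvd.intro _ rfl : x ∣ x * y).mul_left a |>.mul_right _
    · rw [mem_tup]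
      intro j
      rw [Nat.mem_primeFactors]
      refine ⟨(tz_PP (mem_tup.1 h4 j)).1, ?_, by omega⟩
      rw [← h5]
      exact (dvd_prod_of_mem c (mem_univ j)).mul_left _
  · rintro ⟨a, x, y, c⟩ hz ⟨a', x', y', c'⟩ hz' heq
    simp only [coe_filter, mem_product, Set.mem_ofPred_eq] at hz hz'
    simp only [Prod.mk.injEq] at heq ⊢
    obtain ⟨⟨h1, h2, h3, h4⟩, h5⟩ := hz
    obtain ⟨⟨h1', h2', h3', h4'⟩, h5'⟩ := hz'
    obtain ⟨e1, e2, e3⟩ := heq
    have ea : a = a' := by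
      rw [← Nat.prod_primeFactors_of_squarefree (tz_Sm (hA h1)).2.2.1,
        ← Nat.prod_primeFactors_of_squarefree (tz_Sm (hA h1')).2.2.1, e1]
    have ex : x = x' := by
      rw [← Nat.prod_primeFactors_of_squarefree (tz_Sm (hX h2)).2.2.1,
        ← Nat.prod_primeFactors_of_squarefree (tz_Sm (hX h2')).2.2.1, e2]
    subst ea ex e3
    refine ⟨rfl, rfl, ?_, rfl⟩
    unfold tz_val at h5 h5'
    simp only at h5 h5'
    rw [← h5'] at h5
    have hP : (∏ j, c j) ≠ 0 := prod_ne_zero_iff.2 fun j _ => (tz_PP (mem_tup.1 h4 j)).1.ne_zero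
    have h6 := Nat.eq_of_mul_eq_mul_right (Nat.pos_of_ne_zero hP) h5
    have h7 := Nat.eq_of_mul_eq_mul_left (Nat.pos_of_ne_zero (tz_Sm (hA h1)).1) h6
    exact Nat.eq_of_mul_eq_mul_left (Nat.pos_of_ne_zero (tz_Sm (hX h2)).1) h7

theorem T0_count (i m c₀ : ℕ) : ∃ C : ℕ, ∀ β κ : ℕ, Ok i β κ → C * κ ≤ β →
    ∀ (M₁ M₂ : ℕ) (A X : Finset ℕ), A ⊆ Sm κ M₁ → X ⊆ Sm κ M₂ →
      2 * (M₁ + 2 * M₂ + m * β) ≤ (2 * i + 1) * β + c₀ * κ →
      en (A ×ˢ X ×ˢ X ×ˢ tup (PP β κ) m) (fun z => psiS (2 ^ ((2 * i + 1) * β)) z.1 +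
        psiS (2 ^ ((2 * i + 1) * β)) z.2.1 + psiS (2 ^ ((2 * i + 1) * β)) z.2.2.1 +
        sm' (psiS (2 ^ ((2 * i + 1) * β))) z.2.2.2) ≤ 2 ^ (i * β + (β + 1) / 2 + C * κ) := by
  classical
  refine ⟨2 * c₀ + 4 * m + 10, ?_⟩
  intro β κ hOk hC M₁ M₂ A X hA hX hM
  have hκ := hOk.one
  have hpo := hOk.po
  obtain ⟨hb1, hb2, hb3⟩ : (c₀ + 1) * κ ≤ β ∧ (2 * m + 2) * κ ≤ β ∧ κ ≤ β := by
    refine ⟨le_trans (Nat.mul_le_mul_right κ (by omega)) hC,
      le_trans (Nat.mul_le_mul_right κ (by omega)) hC, ?_⟩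
    refine le_trans ?_ hC
    exact Nat.le_mul_of_pos_left κ (by omega)
  have hmi : m ≤ i := by
    by_contra hcon
    push Not at hcon
    have h1 : (i + 1) * β ≤ m * β := Nat.mul_le_mul_right β hcon
    have h2 : (c₀ + 1) * κ = c₀ * κ + κ := by ring
    have h3 : (2 * i + 1) * β + β = 2 * ((i + 1) * β) := by ring
    omega
  have hmβ : m * β ≤ i * β := Nat.mul_le_mul_right β hmi
  set N : ℕ := 2 ^ ((2 * i + 1) * β) with hN
  set C' : ℕ := c₀ + m + 2 with hC'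
  set T := A ×ˢ X ×ˢ X ×ˢ tup (PP β κ) m with hT
  -- elements of T
  have hel : ∀ z ∈ T, z.1 ∈ Sm κ M₁ ∧ z.2.1 ∈ Sm κ M₂ ∧ z.2.2.1 ∈ Sm κ M₂ ∧
      ∀ j, z.2.2.2 j ∈ PP β κ := by
    intro z hz
    rw [hT, mem_product, mem_product, mem_product] at hz
    exact ⟨hA hz.1, hX hz.2.1, hX hz.2.2.1, fun j => mem_tup.1 hz.2.2.2 j⟩
  have hP0 : ∀ z ∈ T, (∏ j, z.2.2.2 j) ≠ 0 := fun z hz =>
    prod_ne_zero_iff.2 fun j _ => (tz_PP ((hel z hz).2.2.2 j)).1.ne_zero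
  have hP1 : ∀ z ∈ T, ∏ j, z.2.2.2 j ≤ 2 ^ ((β + κ) * m) := by
    intro z hz
    calc ∏ j, z.2.2.2 j ≤ ∏ _j : Fin m, 2 ^ (β + κ) :=
          prod_le_prod (fun _ _ => Nat.zero_le _) fun j _ => (tz_PP ((hel z hz).2.2.2 j)).2
      _ = 2 ^ ((β + κ) * m) := by rw [prod_const, card_univ, Fintype.card_fin, pow_mul]
  have hs0 : ∀ z ∈ T, z.1 * (z.2.1 * z.2.2.1) ≠ 0 := fun z hz =>
    mul_ne_zero (tz_Sm (hel z hz).1).1 (mul_ne_zero (tz_Sm (hel z hz).2.1).1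
      (tz_Sm (hel z hz).2.2.1).1)
  have hs1 : ∀ z ∈ T, z.1 * (z.2.1 * z.2.2.1) ≤ 2 ^ (M₁ + 2 * M₂) := by
    intro z hz
    calc z.1 * (z.2.1 * z.2.2.1) ≤ 2 ^ M₁ * (2 ^ M₂ * 2 ^ M₂) :=
          Nat.mul_le_mul (tz_Sm (hel z hz).1).2.1 (Nat.mul_le_mul (tz_Sm (hel z hz).2.1).2.1
            (tz_Sm (hel z hz).2.2.1).2.1)
      _ = 2 ^ (M₁ + 2 * M₂) := by
          rw [← pow_add, ← pow_add]
          congr 1
          ring
  have hsm : ∀ z ∈ T, ∀ p ∈ (z.1 * (z.2.1 * z.2.2.1)).primeFactors, p ≤ 2 ^ κ := by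
    intro z hz p hp
    obtain ⟨h1, h2, h3, -⟩ := hel z hz
    rw [Nat.primeFactors_mul (tz_Sm h1).1 (mul_ne_zero (tz_Sm h2).1 (tz_Sm h3).1),
      Nat.primeFactors_mul (tz_Sm h2).1 (tz_Sm h3).1, mem_union, mem_union] at hp
    rcases hp with hp | hp | hp
    · exact (tz_Sm h1).2.2.2 p hp
    · exact (tz_Sm h2).2.2.2 p hp
    · exact (tz_Sm h3).2.2.2 p hp
  have hval0 : ∀ z ∈ T, tz_val z ≠ 0 := fun z hz => mul_ne_zero (hs0 z hz) (hP0 z hz)
  have hval1 : ∀ z ∈ T, tz_val z ≤ 2 ^ (M₁ + 2 * M₂ + (β + κ) * m) := by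
    intro z hz
    rw [pow_add]
    exact Nat.mul_le_mul (hs1 z hz) (hP1 z hz)
  have hexp : (β + κ) * m = m * β + m * κ := by ring
  have hexp2 : (2 * m + 2) * κ = 2 * (m * κ) + 2 * κ := by ring
  have hexp3 : (c₀ + 1) * κ = c₀ * κ + κ := by ring
  have hexp4 : (2 * i + 1) * β = 2 * (i * β) + β := by ring
  have hexp5 : (8 * i + 16) * β = 8 * (i * β) + 16 * β := by ring
  have hL : M₁ + 2 * M₂ + (β + κ) * m ≤ (8 * i + 16) * β := by omega
  have hval2 : ∀ z ∈ T, tz_val z ≤ 2 ^ ((8 * i + 16) * β) := fun z hz =>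
    (hval1 z hz).trans (Nat.pow_le_pow_right (by norm_num) hL)
  -- the divisor
  have hdiv : ∀ z ∈ T, ∃ d, d ∣ z.1 * (z.2.1 * z.2.2.1) ∧ d ≤ 2 ^ (C' * κ) ∧
      (d = z.1 * (z.2.1 * z.2.2.1) ∨ 2 ^ (C' * κ) < d * 2 ^ κ) := fun z hz =>
    tz_div (hs0 z hz) (hsm z hz) Nat.one_le_two_pow
  choose! δ hδ using hdiv
  -- the rest is small
  have hrest : ∀ z ∈ T, ∃ e, e ≠ 0 ∧ tz_val z = δ z * e ∧ e ^ 2 * 2 ^ (2 * κ) ≤ N := by
    intro z hz
    obtain ⟨⟨e, he⟩, h2, h3⟩ := hδ z hz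
    have he0 : e ≠ 0 := by
      rintro rfl
      rw [mul_zero] at he
      exact hs0 z hz he
    refine ⟨e * ∏ j, z.2.2.2 j, mul_ne_zero he0 (hP0 z hz), ?_, ?_⟩
    · unfold tz_val
      rw [he, mul_assoc]
    · rcases h3 with h3 | h3
      · have he1 : e = 1 := by
          have h4 : δ z * e = δ z * 1 := by rw [mul_one, ← he, h3]
          have h5 : 0 < δ z := by
            rw [h3]
            exact Nat.pos_of_ne_zero (hs0 z hz)
          exact Nat.eq_of_mul_eq_mul_left h5 h4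
        rw [he1, one_mul]
        calc (∏ j, z.2.2.2 j) ^ 2 * 2 ^ (2 * κ) ≤ (2 ^ ((β + κ) * m)) ^ 2 * 2 ^ (2 * κ) :=
              Nat.mul_le_mul_right _ (Nat.pow_le_pow_left (hP1 z hz) 2)
          _ = 2 ^ ((β + κ) * m * 2 + 2 * κ) := by rw [← pow_mul, ← pow_add]
          _ ≤ N := by
              rw [hN]
              refine Nat.pow_le_pow_right (by norm_num) ?_
              omega
      · have h4 : e * 2 ^ (C' * κ) ≤ 2 ^ (M₁ + 2 * M₂) * 2 ^ κ := by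
          calc e * 2 ^ (C' * κ) ≤ e * (δ z * 2 ^ κ) := Nat.mul_le_mul_left e h3.le
            _ = (z.1 * (z.2.1 * z.2.2.1)) * 2 ^ κ := by rw [he]; ring
            _ ≤ _ := Nat.mul_le_mul_right _ (hs1 z hz)
        have h5 : (e * ∏ j, z.2.2.2 j) * 2 ^ (C' * κ) ≤
            2 ^ (M₁ + 2 * M₂ + κ + (β + κ) * m) := by
          calc (e * ∏ j, z.2.2.2 j) * 2 ^ (C' * κ) = (e * 2 ^ (C' * κ)) * ∏ j, z.2.2.2 j := by ring
            _ ≤ (2 ^ (M₁ + 2 * M₂) * 2 ^ κ) * 2 ^ ((β + κ) * m) := Nat.mul_le_mul h4 (hP1 z hz)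
            _ = _ := by rw [← pow_add, ← pow_add]
        have h6 : ((e * ∏ j, z.2.2.2 j) * 2 ^ (C' * κ)) ^ 2 ≤
            (2 ^ (M₁ + 2 * M₂ + κ + (β + κ) * m)) ^ 2 := Nat.pow_le_pow_left h5 2
        have h7 : (2 ^ (M₁ + 2 * M₂ + κ + (β + κ) * m)) ^ 2 ≤ N * 2 ^ (2 * C' * κ - 2 * κ) := by
          rw [hN, ← pow_mul, ← pow_add]
          refine Nat.pow_le_pow_right (by norm_num) ?_
          have h8 : 2 * C' * κ = 2 * (c₀ * κ) + 2 * (m * κ) + 4 * κ := by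
            rw [hC']
            ring
          omega
        have h9 : ((e * ∏ j, z.2.2.2 j) * 2 ^ (C' * κ)) ^ 2 =
            ((e * ∏ j, z.2.2.2 j) ^ 2 * 2 ^ (2 * κ)) * 2 ^ (2 * C' * κ - 2 * κ) := by
          rw [mul_pow, mul_assoc, ← pow_mul, ← pow_add]
          congr 2
          have h8 : 2 * κ ≤ 2 * C' * κ := Nat.mul_le_mul_right κ (by omega)
          have h10 : C' * κ * 2 = 2 * C' * κ := by ring
          omega
        rw [h9] at h6
        exact Nat.le_of_mul_le_mul_right (h6.trans h7) (by positivity)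
  -- the key: `z` and `δ z'` determine the product
  have hkey : ∀ z ∈ T, ∀ z' ∈ T, δ z = δ z' → psiS N (tz_val z) = psiS N (tz_val z') →
      tz_val z = tz_val z' := by
    intro z hz z' hz' hd hψ
    obtain ⟨e, he0, he, hes⟩ := hrest z hz
    obtain ⟨e', he0', he', hes'⟩ := hrest z' hz'
    have hd0 : δ z ≠ 0 := by
      intro h0
      rw [h0, zero_mul] at he
      exact hval0 z hz he
    rw [he, he', ← hd, psiS_mul hd0 he0, psiS_mul hd0 he0'] at hψ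
    have hψ' : psiS N e = psiS N e' := add_left_cancel hψ
    have hle : e ≤ 2 ^ ((8 * i + 16) * β) :=
      le_trans (by rw [he]; exact Nat.le_mul_of_pos_left e (Nat.pos_of_ne_zero hd0)) (hval2 z hz)
    have hle' : e' ≤ 2 ^ ((8 * i + 16) * β) :=
      le_trans (by
        rw [he']
        exact Nat.le_mul_of_pos_left e' (Nat.pos_of_ne_zero (by rw [← hd]; exact hd0)))
        (hval2 z' hz')
    have hprod : e * e' * 2 ^ (2 * κ) ≤ N := by
      have h1 : (e * e' * 2 ^ (2 * κ)) ^ 2 ≤ N ^ 2 := by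
        calc (e * e' * 2 ^ (2 * κ)) ^ 2 = (e ^ 2 * 2 ^ (2 * κ)) * (e' ^ 2 * 2 ^ (2 * κ)) := by ring
          _ ≤ N * N := Nat.mul_le_mul hes hes'
          _ = N ^ 2 := by ring
      exact (Nat.pow_le_pow_iff_left (by norm_num)).1 h1
    have heq : e = e' := by
      refine spacingS (N := N) (m := (8 * i + 16) * β) (D := 0) he0 he0' (length_le he0 hle)
        (length_le he0' hle') (by rw [hψ', sub_self, abs_zero]; exact le_rfl) ?_
      have h2 : 0 < e * e' := Nat.pos_of_ne_zero (mul_ne_zero he0 he0')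
      calc (0 + (8 * i + 16) * β) * (e * e') < 2 ^ κ * (e * e') :=
            Nat.mul_lt_mul_of_pos_right (by omega) h2
        _ ≤ 2 ^ (2 * κ) * (e * e') :=
            Nat.mul_le_mul_right _ (Nat.pow_le_pow_right (by norm_num) (by omega))
        _ = e * e' * 2 ^ (2 * κ) := by ring
        _ ≤ N := hprod
    rw [he, he', hd, heq]
  have hψT : ∀ z ∈ T, psiS N z.1 + psiS N z.2.1 + psiS N z.2.2.1 + sm' (psiS N) z.2.2.2 =
      psiS N (tz_val z) := by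
    intro z hz
    obtain ⟨h1, h2, h3, h4⟩ := hel z hz
    exact tz_psi z (tz_Sm h1).1 (tz_Sm h2).1 (tz_Sm h3).1 fun j => (tz_PP (h4 j)).1.ne_zero
  -- the count
  have hcount : en T (fun z => psiS N z.1 + psiS N z.2.1 + psiS N z.2.2.1 +
      sm' (psiS N) z.2.2.2) ≤ 2 ^ ((m + 2) * κ) * #(T ×ˢ Icc 0 (2 ^ (C' * κ))) := by
    unfold en
    refine card_le_mul_card_image_of_maps_to (f := fun w => (w.1, δ w.2)) ?_ _ ?_
    · intro w hw
      rw [mem_filter, mem_product] at hw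
      rw [mem_product, mem_Icc]
      exact ⟨hw.1.1, Nat.zero_le _, (hδ w.2 hw.1.2).2.1⟩
    · rintro ⟨z, d⟩ _
      rcases Finset.eq_empty_or_nonempty ({w ∈ {w ∈ T ×ˢ T | psiS N w.1.1 + psiS N w.1.2.1 +
        psiS N w.1.2.2.1 + sm' (psiS N) w.1.2.2.2 = psiS N w.2.1 + psiS N w.2.2.1 +
        psiS N w.2.2.2.1 + sm' (psiS N) w.2.2.2.2} | (w.1, δ w.2) = (z, d)}) with he | ⟨w₀, hw₀⟩
      · rw [he]
        simp
      · rw [mem_filter, mem_filter, mem_product] at hw₀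
        obtain ⟨⟨⟨h1, h2⟩, h3⟩, h4⟩ := hw₀
        rw [Prod.mk.injEq] at h4
        refine le_trans ?_ (tz_fib (β := β) (m := m) A X hA hX (tz_val w₀.2) (hOk.om _
          (Nat.one_le_iff_ne_zero.2 (hval0 _ h2)) (hval2 _ h2)))
        refine card_le_card_of_injOn (fun w => w.2) ?_ ?_
        · intro w hw
          rw [mem_coe, mem_filter, mem_filter, mem_product] at hw
          obtain ⟨⟨⟨g1, g2⟩, g3⟩, g4⟩ := hw
          rw [Prod.mk.injEq] at g4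
          rw [mem_coe, mem_filter]
          refine ⟨g2, ?_⟩
          rw [hψT _ h1, hψT _ h2] at h3
          beta_reduce at g3
          rw [hψT _ g1, hψT _ g2] at g3
          refine hkey _ g2 _ h2 (g4.2.trans h4.2.symm) ?_
          rw [← g3, ← h3, g4.1, h4.1]
        · intro w hw w' hw' hww
          rw [mem_coe, mem_filter, Prod.mk.injEq] at hw hw'
          exact Prod.ext (hw.2.1.trans hw'.2.1.symm) hww
  refine hcount.trans ?_
  have hT1 : #T ≤ 2 ^ (M₁ + 2 * M₂ + (β + κ) * m) := by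
    have hSm : ∀ M, #(Sm κ M) ≤ 2 ^ M := by
      intro M
      unfold Sm
      refine (card_filter_le _ _).trans ?_
      simp
    have hPP : #(PP β κ) ≤ 2 ^ (β + κ) := by
      have h1 : PP β κ ⊆ Icc 1 (2 ^ (β + κ)) := by
        intro p hp
        rw [mem_Icc]
        exact ⟨(tz_PP hp).1.one_lt.le, (tz_PP hp).2⟩
      refine (card_le_card h1).trans ?_
      simp
    rw [hT, card_product, card_product, card_product, card_tup]
    calc #A * (#X * (#X * #(PP β κ) ^ m))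
        ≤ 2 ^ M₁ * (2 ^ M₂ * (2 ^ M₂ * (2 ^ (β + κ)) ^ m)) :=
          Nat.mul_le_mul ((card_le_card hA).trans (hSm _)) (Nat.mul_le_mul
            ((card_le_card hX).trans (hSm _)) (Nat.mul_le_mul ((card_le_card hX).trans (hSm _))
              (Nat.pow_le_pow_left hPP m)))
      _ = _ := by
          rw [← pow_mul, ← pow_add, ← pow_add, ← pow_add]
          congr 1
          ring
  have hI : #(Icc 0 (2 ^ (C' * κ))) ≤ 2 ^ (C' * κ + 1) := by
    rw [Nat.card_Icc, pow_succ]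
    have : 1 ≤ 2 ^ (C' * κ) := Nat.one_le_two_pow
    omega
  calc 2 ^ ((m + 2) * κ) * #(T ×ˢ Icc 0 (2 ^ (C' * κ)))
      ≤ 2 ^ ((m + 2) * κ) * (2 ^ (M₁ + 2 * M₂ + (β + κ) * m) * 2 ^ (C' * κ + 1)) := by
        rw [card_product]
        exact Nat.mul_le_mul_left _ (Nat.mul_le_mul hT1 hI)
    _ = 2 ^ ((m + 2) * κ + (M₁ + 2 * M₂ + (β + κ) * m + (C' * κ + 1))) := by
        rw [← pow_add, ← pow_add]
    _ ≤ _ := by
        refine Nat.pow_le_pow_right (by norm_num) ?_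
        have h1 : (m + 2) * κ = m * κ + 2 * κ := by ring
        have h2 : C' * κ = c₀ * κ + m * κ + 2 * κ := by
          rw [hC']
          ring
        have h3 : (2 * c₀ + 4 * m + 10) * κ = 2 * (c₀ * κ) + 4 * (m * κ) + 10 * κ := by ring
        have h4 : m * β = i * β ∨ m * β ≤ i * β := Or.inr hmβ
        omega

theorem T0_count' (i m c₀ : ℕ) : ∃ C : ℕ, ∀ β κ : ℕ, Ok i β κ → C * κ ≤ β →
    ∀ (M₁ : ℕ) (A : Finset ℕ), A ⊆ Sm κ M₁ → 2 * (M₁ + m * β) ≤ (2 * i + 1) * β + c₀ * κ →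
      en (A ×ˢ tup (PP β κ) m) (fun z => psiS (2 ^ ((2 * i + 1) * β)) z.1 +
        sm' (psiS (2 ^ ((2 * i + 1) * β))) z.2) ≤ 2 ^ (i * β + (β + 1) / 2 + C * κ) := by
  classical
  obtain ⟨C, hC⟩ := T0_count i m c₀
  refine ⟨C, ?_⟩
  intro β κ hOk hCβ M₁ A hA hM
  have h1 : ({1} : Finset ℕ) ⊆ Sm κ 0 := by
    rw [singleton_subset_iff]
    unfold Sm
    simp only [pow_zero, Icc_self, mem_filter, mem_singleton, squarefree_one,
      Nat.primeFactors_one, notMem_empty, IsEmpty.forall_iff, implies_true, and_self]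
  refine le_trans ?_ (hC β κ hOk hCβ M₁ 0 A {1} hA h1 (by simpa using hM))
  unfold en
  refine card_le_card_of_injOn (fun w => ((w.1.1, 1, 1, w.1.2), (w.2.1, 1, 1, w.2.2))) ?_ ?_
  · rintro ⟨⟨a, c⟩, a', c'⟩ hw
    simp only [coe_filter, mem_product, Set.mem_ofPred_eq] at hw
    simp only [coe_filter, mem_product, Set.mem_ofPred_eq, mem_singleton, psiS_one, add_zero,
      true_and]
    exact hw
  · rintro ⟨⟨a, c⟩, a', c'⟩ _ ⟨⟨b, d⟩, b', d'⟩ _ heq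
    simp only [Prod.mk.injEq, true_and] at heq
    obtain ⟨⟨rfl, rfl⟩, rfl, rfl⟩ := heq
    rfl

end Pool.Agent.Helper19.P3
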